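import Pool.Agent.W14.US.Stm

/-! Bound of the Cauchy transform. -/

set_option autoImplicit false

open Complex MeasureTheory
open scoped ContDiff

namespace Pool.Agent.W310.US

open Pool.Agent.W14.US

/-- the radial profile `1 / y` for `y < r` -/
noncomputable def phi (r : ℝ) (y : ℝ) : ℝ := (Set.Iio r).indicator (fun y => y⁻¹) y

theorem phi_eq {r : ℝ} : Set.EqOn (fun y : ℝ => y ^ (Module.finrank ℝ ℂ - 1) • phi r y)
    ((Set.Iio r).indicator fun _ => (1 : ℝ)) (Set.Ioi 0) := by
  intro y hy
  have hy' : y ≠ 0 := ne_of_gt hy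
  unfold phi
  by_cases h : y ∈ Set.Iio r
  · simp [Set.indicator_of_mem h, Complex.finrank_real_complex, hy']
  · simp [Set.indicator_of_notMem h]

theorem phi_int {r : ℝ} : IntegrableOn (fun y : ℝ => y ^ (Module.finrank ℝ ℂ - 1) • phi r y)
    (Set.Ioi 0) := by
  rw [integrableOn_congr_fun phi_eq measurableSet_Ioi, integrableOn_indicator_iff measurableSet_Iio]
  have h : Set.Iio r ∩ Set.Ioi 0 = Set.Ioo 0 r := by
    ext x; simp [and_comm]
  rw [h]
  exact integrableOn_const (by simp)

theorem phi_integrable (r : ℝ) : Integrable (fun w : ℂ => phi r ‖w‖) :=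
  (integrable_fun_norm_addHaar (μ := (volume : Measure ℂ)) (f := phi r)).2 phi_int

theorem phi_integral {r : ℝ} (hr : 0 < r) : ∫ w : ℂ, phi r ‖w‖ = 2 * Real.pi * r := by
  rw [integral_fun_norm_addHaar (volume : Measure ℂ) (phi r),
    setIntegral_congr_fun measurableSet_Ioi phi_eq, integral_indicator measurableSet_Iio,
    Measure.restrict_restrict measurableSet_Iio]
  have h : Set.Iio r ∩ Set.Ioi 0 = Set.Ioo 0 r := by
    ext x; simp [and_comm]
  rw [h]
  simp [Complex.finrank_real_complex, Measure.real, hr.le]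
  ring

theorem bd : S_BD := by
  intro g m a r A hg hgc hA hm ha hr hgm hgA hvA z
  have hpi := Real.pi_pos
  set A' : Set ℂ := (fun w => z - w) ⁻¹' A with hA'
  have hmp : MeasurePreserving (fun w : ℂ => z - w) volume volume :=
    Measure.measurePreserving_sub_left volume z
  have hA'm : MeasurableSet A' := hmp.measurable hA
  have hvA' : volume A' ≤ ENNReal.ofReal a := by
    rw [hA', hmp.measure_preimage hA.nullMeasurableSet]; exact hvA
  have hfin : volume A' ≠ ⊤ := ne_top_of_le_ne_top ENNReal.ofReal_ne_top hvA'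
  have hreal : volume.real A' ≤ a := by
    rw [Measure.real]; exact ENNReal.toReal_le_of_le_ofReal ha hvA'
  set F : ℂ → ℝ := fun w => m * phi r ‖w‖ + A'.indicator (fun _ => m / r) w with hF
  have hFi : Integrable F := by
    refine ((phi_integrable r).const_mul m).add ?_
    rw [integrable_indicator_iff hA'm]
    exact integrableOn_const hfin
  have hb : ∀ w, ‖g (z - w) * w⁻¹‖ ≤ F w := by
    intro w
    rw [norm_mul, norm_inv]
    have h0 : 0 ≤ m * phi r ‖w‖ := by
      refine mul_nonneg hm ?_
      unfold phi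
      by_cases h : ‖w‖ ∈ Set.Iio r
      · rw [Set.indicator_of_mem h]; exact inv_nonneg.2 (norm_nonneg _)
      · rw [Set.indicator_of_notMem h]
    by_cases hw : ‖w‖ < r
    · have h1 : phi r ‖w‖ = ‖w‖⁻¹ := by
        unfold phi; exact Set.indicator_of_mem (by exact hw) _
      have h2 : 0 ≤ A'.indicator (fun _ => m / r) w :=
        Set.indicator_nonneg (fun _ _ => div_nonneg hm hr.le) _
      calc ‖g (z - w)‖ * ‖w‖⁻¹ ≤ m * ‖w‖⁻¹ :=
            mul_le_mul_of_nonneg_right (hgm _) (inv_nonneg.2 (norm_nonneg _))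
        _ ≤ F w := by rw [hF]; simp only; rw [h1]; linarith
    · push Not at hw
      by_cases hwA : w ∈ A'
      · have h3 : A'.indicator (fun _ => m / r) w = m / r := Set.indicator_of_mem hwA _
        calc ‖g (z - w)‖ * ‖w‖⁻¹ ≤ m * r⁻¹ :=
              mul_le_mul (hgm _) (inv_anti₀ hr hw) (inv_nonneg.2 (norm_nonneg _)) hm
          _ ≤ F w := by rw [hF]; simp only; rw [h3, ← div_eq_mul_inv]; linarith
      · have h4 : g (z - w) = 0 := hgA _ hwA
        rw [h4, norm_zero, zero_mul, hF]
        simp only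
        rw [Set.indicator_of_notMem hwA]
        linarith
  have hI : ‖∫ w, g (z - w) * w⁻¹‖ ≤ ∫ w, F w :=
    norm_integral_le_of_norm_le hFi (Filter.Eventually.of_forall hb)
  have hIF : ∫ w, F w = m * (2 * Real.pi * r) + volume.real A' * (m / r) := by
    rw [hF, integral_add ((phi_integrable r).const_mul m), integral_const_mul, phi_integral hr,
      integral_indicator hA'm, setIntegral_const, smul_eq_mul]
    rw [integrable_indicator_iff hA'm]
    exact integrableOn_const hfin
  unfold T
  rw [norm_mul, Complex.norm_real, Real.norm_of_nonneg (by positivity)]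
  calc (1 / Real.pi) * ‖∫ w, g (z - w) * w⁻¹‖
      ≤ (1 / Real.pi) * (m * (2 * Real.pi * r) + volume.real A' * (m / r)) := by
        rw [← hIF]; exact mul_le_mul_of_nonneg_left hI (by positivity)
    _ ≤ (1 / Real.pi) * (m * (2 * Real.pi * r) + a * (m / r)) := by gcongr
    _ = m * (2 * r) + (1 / Real.pi) * (a * (m / r)) := by field_simp
    _ ≤ m * (2 * r) + 1 * (a * (m / r)) := by
        have : 1 / Real.pi ≤ 1 := by
          rw [div_le_one hpi]; linarith [Real.pi_gt_three]
        gcongr
    _ = m * (2 * r + a / r) := by ring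

end Pool.Agent.W310.US
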